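import Mathlib

/-!
# Modal formulas, Kripke frames, full possibility frames, first-order frame languages

Definitions used for MP_156542_lc.
-/

namespace Pool.Agent.R612.PF

open FirstOrder

universe u w

/-- Polymodal formulas: propositional variables, negation, conjunction and boxes `box i`, `i ∈ I`. -/
inductive Mf (I : Type w) : Type w
  | var : ℕ → Mf I
  | neg : Mf I → Mf I
  | and : Mf I → Mf I → Mf I
  | box : I → Mf I → Mf I

/-- Kripke frames: a nonempty set with one binary relation for each index. -/
structure KFrame (I : Type w) : Type (max w (u + 1)) where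
  W : Type u
  ne : Nonempty W
  R : I → W → W → Prop

/-- Truth at a world of a Kripke frame. -/
def KFrame.Sat {I : Type w} (K : KFrame.{u, w} I) (V : ℕ → Set K.W) : Mf I → K.W → Prop
  | .var n, x => x ∈ V n
  | .neg a, x => ¬ K.Sat V a x
  | .and a b, x => K.Sat V a x ∧ K.Sat V b x
  | .box i a, x => ∀ y, K.R i x y → K.Sat V a y

/-- Validity on a Kripke frame. -/
def KFrame.Valid {I : Type w} (K : KFrame.{u, w} I) (φ : Mf I) : Prop :=
  ∀ V : ℕ → Set K.W, ∀ x, K.Sat V φ x

/-- A set `X` in a poset is regular open if `X = {x : ∀ x' ≤ x, ∃ x'' ≤ x', x'' ∈ X}`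
(`x ≤ y` is read: `x` refines `y`). -/
def IsRO {S : Type u} [PartialOrder S] (X : Set S) : Prop :=
  X = {x | ∀ x', x' ≤ x → ∃ x'', x'' ≤ x' ∧ x'' ∈ X}

/-- Full possibility frames: a nonempty poset with a binary relation for each index such that
the regular open sets are closed under every box. -/
structure PFrame (I : Type w) : Type (max w (u + 1)) where
  S : Type u
  ne : Nonempty S
  po : PartialOrder S
  R : I → S → S → Prop
  box_ro : ∀ (i : I) (X : Set S), IsRO X → IsRO {x | ∀ y, R i x y → y ∈ X}

attribute [instance] PFrame.po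

/-- Forcing at a point of a full possibility frame. -/
def PFrame.Force {I : Type w} (F : PFrame.{u, w} I) (V : ℕ → Set F.S) : Mf I → F.S → Prop
  | .var n, x => x ∈ V n
  | .neg a, x => ∀ x', x' ≤ x → ¬ F.Force V a x'
  | .and a b, x => F.Force V a x ∧ F.Force V b x
  | .box i a, x => ∀ y, F.R i x y → F.Force V a y

/-- Validity on a full possibility frame: forced at every point under every valuation
by regular open sets. -/
def PFrame.Valid {I : Type w} (F : PFrame.{u, w} I) (φ : Mf I) : Prop :=
  ∀ V : ℕ → Set F.S, (∀ n, IsRO (V n)) → ∀ x, F.Force V φ x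

/-- The relation symbols of the frame signature for Kripke frames: binary symbols `R i`. -/
inductive KRel (I : Type w) : ℕ → Type w
  | R : I → KRel I 2

/-- The first-order language of Kripke frames. -/
def kLang (I : Type w) : FirstOrder.Language.{0, w} := ⟨fun _ => Empty, KRel I⟩

/-- The relation symbols of the frame signature for possibility frames: a binary symbol for
the refinement order and binary symbols `R i`. -/
inductive PRel (I : Type w) : ℕ → Type w
  | le : PRel I 2
  | R : I → PRel I 2

/-- The first-order language of possibility frames. -/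
def pLang (I : Type w) : FirstOrder.Language.{0, w} := ⟨fun _ => Empty, PRel I⟩

/-- A Kripke frame as a first-order structure. -/
instance KFrame.str {I : Type w} (K : KFrame.{u, w} I) : (kLang I).Structure K.W where
  funMap := fun {_} f => Empty.elim f
  RelMap := fun {_} r => match r with
    | .R i => fun v => K.R i (v 0) (v 1)

/-- A first-order structure for the language of possibility frames, from its two ingredients. -/
@[reducible] def mkStr (I : Type w) {S : Type u} (le : S → S → Prop) (R : I → S → S → Prop) :
    (pLang I).Structure S where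
  funMap := fun {_} f => Empty.elim f
  RelMap := fun {_} r => match r with
    | .le => fun v => le (v 0) (v 1)
    | .R i => fun v => R i (v 0) (v 1)

/-- A full possibility frame as a first-order structure. -/
instance PFrame.str {I : Type w} (F : PFrame.{u, w} I) : (pLang I).Structure F.S :=
  mkStr I (fun x y => x ≤ y) F.R

/-- Abbreviations. -/
def Mf.bot {I : Type w} : Mf I := .and (.var 0) (.neg (.var 0))

def Mf.imp {I : Type w} (a b : Mf I) : Mf I := .neg (.and a (.neg b))

def Mf.dia {I : Type w} (i : I) (a : Mf I) : Mf I := .neg (.box i (.neg a))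

/-- `κ = ◇□⊥`. -/
def kap {I : Type w} (i : I) : Mf I := .dia i (.box i .bot)

/-- `β = ¬κ`. -/
def bet {I : Type w} (i : I) : Mf I := .neg (kap i)

/-- `ρ = κ ∧ □□⊥`. -/
def rho {I : Type w} (i : I) : Mf I := .and (kap i) (.box i (.box i .bot))

/-- `γ = ◇ρ`. -/
def gam {I : Type w} (i : I) : Mf I := .dia i (rho i)

/-- `Ψ = □(¬κ → p) ∧ ◇(κ ∧ □(¬□⊥ → ¬p))`. -/
def psi {I : Type w} (i : I) : Mf I :=
  .and (.box i (.imp (bet i) (.var 0)))
    (.dia i (.and (kap i) (.box i (.imp (.neg (.box i .bot)) (.neg (.var 0))))))

/-- `Q = ◇Ψ`. -/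
def qq {I : Type w} (i : I) : Mf I := .dia i (psi i)

/-- `φ = (γ ∧ ◇(β ∧ p)) → (◇(β ∧ p ∧ Q) ∧ ◇(β ∧ p ∧ ¬Q))`. -/
def phi {I : Type w} (i : I) : Mf I :=
  .imp (.and (gam i) (.dia i (.and (bet i) (.var 0))))
    (.and (.dia i (.and (.and (bet i) (.var 0)) (qq i)))
      (.dia i (.and (.and (bet i) (.var 0)) (.neg (qq i)))))

end Pool.Agent.R612.PF
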