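import Pool.Agent.R612.PF.Frame

/-!
# Forcing in the frame and its subframes
-/

namespace Pool.Agent.R612.PF

universe u w

section gen

variable {I : Type w} (F : PFrame.{u, w} I) (V : ℕ → Set F.S) (i : I)

theorem force_neg (a : Mf I) (x : F.S) :
    F.Force V (.neg a) x ↔ ∀ x', x' ≤ x → ¬ F.Force V a x' := Iff.rfl

theorem force_and (a b : Mf I) (x : F.S) :
    F.Force V (.and a b) x ↔ F.Force V a x ∧ F.Force V b x := Iff.rfl

theorem force_box (a : Mf I) (x : F.S) :
    F.Force V (.box i a) x ↔ ∀ y, F.R i x y → F.Force V a y := Iff.rfl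

theorem force_bot (x : F.S) : ¬ F.Force V .bot x := by
  rintro ⟨h1, h2⟩
  exact h2 x (le_refl _) h1

theorem force_imp (a b : Mf I) (x : F.S) : F.Force V (.imp a b) x ↔
    ∀ x', x' ≤ x → F.Force V a x' → ∃ x'', x'' ≤ x' ∧ F.Force V b x'' := by
  simp only [Mf.imp, force_neg, force_and, not_and, not_forall, not_not, exists_prop]

theorem force_dia (a : Mf I) (x : F.S) : F.Force V (.dia i a) x ↔
    ∀ x', x' ≤ x → ∃ y, F.R i x' y ∧ ∃ y', y' ≤ y ∧ F.Force V a y' := by
  simp only [Mf.dia, force_neg, force_box, not_forall, not_not, exists_prop]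

end gen

section fr

variable {P : Pt → Prop} (hb : ∀ l, P (.b l)) (hc : P .c) (he : P .e) (hd : P .d)
  (hcone : ∀ l, P (.u (cone l))) {I : Type w} (i : I)
  (V : ℕ → Set {x // P x})

include hb hc he hd hcone

/-- Only `d` is a dead end. -/
theorem fr_dead (x : {x // P x}) :
    (Fr P hb I).Force V (.box i .bot) x ↔ x.1 = .d := by
  rw [force_box]
  constructor
  · intro h
    have h' : ∀ y : {x // P x}, ¬ Rel x.1 y.1 := fun y hy =>
      force_bot (Fr P hb I) V y (h y hy)
    obtain ⟨x, hx⟩ := x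
    cases x with
    | b l =>
      exfalso
      have hp : l <:+ pick (cone l) := pick_mem (cone l)
      exact h' ⟨_, hcone l⟩ (.bu (Or.inl (hp.trans (List.suffix_cons _ _))))
    | u N => exact (h' ⟨_, hb (pick N)⟩ (.ub (pick_mem N))).elim
    | v N => exact (h' ⟨_, hd⟩ .vd).elim
    | c => exact (h' ⟨_, he⟩ .ce).elim
    | e => exact (h' ⟨_, hd⟩ .ed).elim
    | d => rfl
  · intro h y hy
    exfalso
    have hy' : Rel x.1 y.1 := hy
    rw [h] at hy'
    cases hy'

omit hb hc he hd hcone in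
theorem rel_d_of_le {x x' : Pt} (h : x' ≤ x) (hr : Rel x .d) : Rel x' .d := by
  cases hr with
  | vd => rw [le_v h]; exact .vd
  | ed => rw [le_e h]; exact .ed

theorem fr_kap (x : {x // P x}) : (Fr P hb I).Force V (kap i) x ↔ Rel x.1 .d := by
  rw [kap, force_dia]
  constructor
  · intro h
    obtain ⟨y, hy, y', hy', hf⟩ := h x (le_refl _)
    rw [fr_dead hb hc he hd hcone] at hf
    have hle : y'.1 ≤ y.1 := hy'
    have hR : Rel x.1 y.1 := hy
    rw [hf] at hle
    rw [← ge_d hle]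
    exact hR
  · intro h x' hx'
    have := rel_d_of_le (x := x.1) (x' := x'.1) hx' h
    exact ⟨⟨.d, hd⟩, this, ⟨.d, hd⟩, le_refl _, by rw [fr_dead hb hc he hd hcone]⟩

theorem fr_bet (x : {x // P x}) : (Fr P hb I).Force V (bet i) x ↔ ¬ Rel x.1 .d := by
  rw [bet, force_neg]
  constructor
  · intro h hr
    exact h x (le_refl _) (by rw [fr_kap hb hc he hd hcone]; exact hr)
  · intro h x' hx' hf
    rw [fr_kap hb hc he hd hcone] at hf
    exact h (rel_up (x := x.1) (x' := x'.1) hx' hf)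

theorem fr_rho_e : (Fr P hb I).Force V (rho i) ⟨.e, he⟩ := by
  refine ⟨by rw [fr_kap hb hc he hd hcone]; exact .ed, ?_⟩
  intro y hy
  have hR : Rel .e y.1 := hy
  rw [fr_dead hb hc he hd hcone]
  obtain ⟨y, hy0⟩ := y
  cases hR
  rfl

theorem fr_gam_c : (Fr P hb I).Force V (gam i) ⟨.c, hc⟩ := by
  rw [gam, force_dia]
  intro x' hx'
  have h : x'.1 = .c := le_c hx'
  refine ⟨⟨.e, he⟩, ?_, ⟨.e, he⟩, le_refl _, fr_rho_e hb hc he hd hcone i V⟩
  change Rel x'.1 .e
  rw [h]
  exact .ce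

/-- Points forcing `rho`. -/
theorem fr_rho (x : {x // P x}) (h : (Fr P hb I).Force V (rho i) x) :
    x.1 = .e ∨ ∃ N : NRO, x.1 = .v N ∧ ∀ l, l ∈ N.1 := by
  obtain ⟨h1, h2⟩ := h
  rw [fr_kap hb hc he hd hcone] at h1
  obtain ⟨x, hx⟩ := x
  cases x with
  | b l => cases h1
  | u N => cases h1
  | v N =>
    right
    refine ⟨N, rfl, ?_⟩
    intro l
    by_contra hl
    rw [← N.2.2 l] at hl
    push Not at hl
    obtain ⟨l', _, hl'2⟩ := hl
    have := h2 ⟨.b l', hb l'⟩ (show Rel (.v N) (.b l') from .vb hl'2)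
    rw [fr_dead hb hc he hd hcone] at this
    cases this
  | c => cases h1
  | e => exact Or.inl rfl
  | d => cases h1

/-- Points forcing `gam` see exactly: all `b l`, plus at most one point, which sees `d`. -/
theorem fr_gam (x : {x // P x}) (h : (Fr P hb I).Force V (gam i) x) :
    (x.1 = .c) ∨ ∃ N : NRO, x.1 = .u N ∧ ∀ l, l ∈ N.1 := by
  rw [gam, force_dia] at h
  obtain ⟨y, hy, y', hy', hf⟩ := h x (le_refl _)
  have hf' := fr_rho hb hc he hd hcone i V y' hf
  have hR : Rel x.1 y.1 := hy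
  have hle : y'.1 ≤ y.1 := hy'
  have hy3 : y'.1 = y.1 := by
    rcases hf' with h1 | ⟨N, h1, _⟩
    · rw [h1] at hle ⊢
      exact (ge_e hle).symm
    · rw [h1] at hle ⊢
      exact (ge_v hle).symm
  rcases hf' with h1 | ⟨N, h1, h2⟩
  · rw [hy3] at h1
    rw [h1] at hR
    cases hR'' : x.1 with
    | c => exact Or.inl rfl
    | _ => rw [hR''] at hR; cases hR
  · rw [hy3] at h1
    rw [h1] at hR
    cases hR'' : x.1 with
    | u M =>
      rw [hR''] at hR
      cases hR
      exact Or.inr ⟨N, rfl, h2⟩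
    | _ => rw [hR''] at hR; cases hR

/-- The trace of the valuation of `p` on the points `b l`. -/
def tr (hb : ∀ l, P (.b l)) (X : Set {x // P x}) : Set (List ℕ) := {l | (⟨.b l, hb l⟩ : {x // P x}) ∈ X}

omit hc he hd hcone in
theorem tr_reg (X : Set {x // P x}) (hX : IsRO X) : Reg (tr hb X) := by
  intro l
  have key : (⟨.b l, hb l⟩ : {x // P x}) ∈ X ↔
      ∀ x' : {x // P x}, x' ≤ ⟨.b l, hb l⟩ → ∃ x'', x'' ≤ x' ∧ x'' ∈ X := by
    constructor
    · intro h
      rw [hX] at h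
      exact h
    · intro h
      rw [hX]
      exact h
  constructor
  · intro h
    refine key.2 ?_
    intro x' hx'
    obtain ⟨l', hl', hl2⟩ := le_b (x := x'.1) (l := l) hx'
    obtain ⟨l'', h1, h2⟩ := h l' hl2
    refine ⟨⟨.b l'', hb l''⟩, ?_, h2⟩
    change Pt.b l'' ≤ x'.1
    rw [hl']
    exact .b h1
  · intro h l' hl'
    obtain ⟨x'', h1, h2⟩ := key.1 h ⟨.b l', hb l'⟩ (show Pt.b l' ≤ Pt.b l from .b hl')
    obtain ⟨l'', h3, h4⟩ := le_b (x := x''.1) (l := l') h1
    refine ⟨l'', h4, ?_⟩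
    have : x'' = ⟨.b l'', hb l''⟩ := Subtype.ext h3
    rw [this] at h2
    exact h2

/-- Where `Ψ` is forced at a point `u N`, the set `N` is the trace of the valuation. -/
theorem fr_psi (hV : IsRO (V 0)) {N : NRO} (hN : P (.u N))
    (h : (Fr P hb I).Force V (psi i) ⟨.u N, hN⟩) : N.1 = tr hb (V 0) := by
  have hreg := tr_reg hb (V 0) hV
  obtain ⟨h1, h2⟩ := h
  apply Set.Subset.antisymm
  · intro l hl
    have h3 := h1 ⟨.b l, hb l⟩ (show Rel (.u N) (.b l) from .ub hl)
    rw [force_imp] at h3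
    rw [← hreg l]
    intro l' hl'
    obtain ⟨x'', h4, h5⟩ := h3 ⟨.b l', hb l'⟩ (show Pt.b l' ≤ Pt.b l from .b hl')
      (by rw [fr_bet hb hc he hd hcone]; intro hh; cases hh)
    obtain ⟨l'', h6, h7⟩ := le_b (x := x''.1) (l := l') h4
    have : x'' = ⟨.b l'', hb l''⟩ := Subtype.ext h6
    rw [this] at h5
    exact ⟨l'', h7, h5⟩
  · intro l hl
    rw [← N.2.2 l]
    intro l' hl'
    by_contra hcon
    push Not at hcon
    rw [force_dia] at h2
    obtain ⟨y, hy, y', hy', h3, h4⟩ := h2 ⟨.u N, hN⟩ (le_refl _)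
    rw [fr_kap hb hc he hd hcone] at h3
    have hR : Rel (.u N) y.1 := hy
    have hle : y'.1 ≤ y.1 := hy'
    have hy3 : y'.1 = .v N := by
      cases hyy : y.1 with
      | b m =>
        rw [hyy] at hle
        obtain ⟨m', hm', _⟩ := le_b hle
        rw [hm'] at h3
        cases h3
      | v M =>
        rw [hyy] at hR hle
        cases hR
        exact le_v hle
      | _ => rw [hyy] at hR; cases hR
    have h5 := h4 ⟨.b l', hb l'⟩ (by
      change Rel y'.1 (.b l')
      rw [hy3]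
      exact .vb hcon)
    rw [force_imp] at h5
    obtain ⟨x'', h6, h7⟩ := h5 ⟨.b l', hb l'⟩ (le_refl _) (by
      intro x' hx' hf
      rw [fr_dead hb hc he hd hcone] at hf
      obtain ⟨m, hm, _⟩ := le_b (x := x'.1) (l := l') hx'
      rw [hm] at hf
      cases hf)
    have h8 := h7 x'' (le_refl _)
    obtain ⟨l'', h9, h10⟩ := le_b (x := x''.1) (l := l') h6
    have : x'' = ⟨.b l'', hb l''⟩ := Subtype.ext h9
    apply h8
    rw [this]
    exact hreg.up (hl'.trans h10) hl

/-- Conversely `Ψ` is forced at `u N` if `N` is the trace and `v N` is a point. -/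
theorem fr_psi' (hV : IsRO (V 0)) {N : NRO} (hN : P (.u N)) (hN' : P (.v N))
    (h : N.1 = tr hb (V 0)) : (Fr P hb I).Force V (psi i) ⟨.u N, hN⟩ := by
  have hreg := tr_reg hb (V 0) hV
  refine ⟨?_, ?_⟩
  · intro y hy
    have hR : Rel (.u N) y.1 := hy
    rw [force_imp]
    intro x' hx' hbt
    rw [fr_bet hb hc he hd hcone] at hbt
    refine ⟨x', le_refl _, ?_⟩
    have hle : x'.1 ≤ y.1 := hx'
    cases hyy : y.1 with
    | b m =>
      rw [hyy] at hle hR
      obtain ⟨m', hm', hm''⟩ := le_b hle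
      have : x' = ⟨.b m', hb m'⟩ := Subtype.ext hm'
      rw [this]
      change m' ∈ tr hb (V 0)
      cases hR with
      | ub hm =>
        rw [← h]
        exact N.2.2.up hm'' hm
    | v M =>
      rw [hyy] at hle
      exfalso
      apply hbt
      rw [le_v hle]
      exact .vd
    | _ => rw [hyy] at hR; cases hR
  · rw [force_dia]
    intro x' hx'
    have h1 : x'.1 = .u N := le_u hx'
    refine ⟨⟨.v N, hN'⟩, ?_, ⟨.v N, hN'⟩, le_refl _, ?_, ?_⟩
    · change Rel x'.1 (.v N)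
      rw [h1]
      exact .uv
    · rw [fr_kap hb hc he hd hcone]
      exact .vd
    · intro y hy
      have hR : Rel (.v N) y.1 := hy
      rw [force_imp]
      intro x hx hnd
      refine ⟨x, le_refl _, ?_⟩
      intro x1 hx1 hx1V
      have hle : x1.1 ≤ y.1 := le_trans (α := Pt) hx1 hx
      cases hyy : y.1 with
      | b m =>
        rw [hyy] at hle hR
        obtain ⟨m', hm', hm''⟩ := le_b hle
        have h5 : x1 = ⟨.b m', hb m'⟩ := Subtype.ext hm'
        rw [h5] at hx1V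
        cases hR with
        | vb hm =>
          apply hm m' hm''
          rw [h]
          exact hx1V
      | d =>
        apply hnd x (le_refl _)
        rw [fr_dead hb hc he hd hcone]
        have hxy : x.1 ≤ y.1 := hx
        rw [hyy] at hxy
        exact le_d hxy
      | _ => rw [hyy] at hR; cases hR

/-- `Q` at `b l` gives a point `u N` for the trace `N`, and compatibility. -/
theorem fr_qq (hV : IsRO (V 0)) {l : List ℕ}
    (h : (Fr P hb I).Force V (qq i) ⟨.b l, hb l⟩) :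
    ∃ N : NRO, P (.u N) ∧ N.1 = tr hb (V 0) ∧ Comp l (0 :: pick N) := by
  rw [qq, force_dia] at h
  obtain ⟨y, hy, y', hy', hf⟩ := h ⟨.b l, hb l⟩ (le_refl _)
  have hR : Rel (.b l) y.1 := hy
  have hle : y'.1 ≤ y.1 := hy'
  cases hyy : y.1 with
  | u N =>
    rw [hyy] at hR hle
    have h1 := le_u hle
    have hPN : P (.u N) := h1 ▸ y'.2
    have h2 : y' = ⟨.u N, hPN⟩ := Subtype.ext h1
    rw [h2] at hf
    have h3 := fr_psi hb hc he hd hcone i V hV hPN hf
    cases hR with
    | bu h4 => exact ⟨N, hPN, h3, h4⟩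
  | _ => rw [hyy] at hR; cases hR

/-- If `u N` is missing for some nonempty regular open set `N`, then `phi` is not valid. -/
theorem fr_not_valid (N : NRO) (hN : ¬ P (.u N)) : ¬ (Fr P hb I).Valid (phi i) := by
  intro hval
  let X : Set {x // P x} := {x | ∃ l, l ∈ N.1 ∧ x.1 = .b l}
  have hXro : IsRO X := by
    unfold IsRO
    ext x
    constructor
    · rintro ⟨l, hl, hx⟩ x' hx'
      refine ⟨x', le_refl _, ?_⟩
      have hle : x'.1 ≤ x.1 := hx'
      rw [hx] at hle
      obtain ⟨l', h1, h2⟩ := le_b hle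
      exact ⟨l', N.2.2.up h2 hl, h1⟩
    · intro h
      obtain ⟨x1, hx1, l1, hl1, hx1'⟩ := h x (le_refl _)
      have hle : x1.1 ≤ x.1 := hx1
      rw [hx1'] at hle
      obtain ⟨m, hm⟩ : ∃ m, x.1 = .b m := by
        cases hxx : x.1 with
        | b m => exact ⟨m, rfl⟩
        | _ => rw [hxx] at hle; cases hle
      refine ⟨m, ?_, hm⟩
      rw [← N.2.2 m]
      intro l' hl'
      obtain ⟨x2, hx2, l2, hl2, hx2'⟩ := h ⟨.b l', hb l'⟩ (by
        change Pt.b l' ≤ x.1
        rw [hm]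
        exact .b hl')
      have hle2 : x2.1 ≤ .b l' := hx2
      rw [hx2'] at hle2
      obtain ⟨l3, h3, h4⟩ := le_b hle2
      cases h3
      exact ⟨l2, h4, hl2⟩
  have htr : tr hb X = N.1 := by
    ext l
    constructor
    · rintro ⟨m, hm, h⟩
      cases h
      exact hm
    · intro h
      exact ⟨l, h, rfl⟩
  have h1 := hval (fun _ => X) (fun _ => hXro) ⟨.c, hc⟩
  rw [phi, force_imp] at h1
  obtain ⟨x'', hx'', h2⟩ := h1 ⟨.c, hc⟩ (le_refl _) ⟨fr_gam_c hb hc he hd hcone i _, by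
    rw [force_dia]
    intro x' hx'
    have h3 : x'.1 = .c := le_c hx'
    refine ⟨⟨.b (pick N), hb _⟩, ?_, ⟨.b (pick N), hb _⟩, le_refl _, ?_, ?_⟩
    · change Rel x'.1 _
      rw [h3]
      exact .cb
    · rw [fr_bet hb hc he hd hcone]
      intro hh
      cases hh
    · exact ⟨pick N, pick_mem N, rfl⟩⟩
  have h3 := h2.1
  rw [force_dia] at h3
  obtain ⟨y, _, y', hy', ⟨_, h4⟩, h5⟩ := h3 x'' (le_refl _)
  obtain ⟨l, hl, hy3⟩ : ∃ l, l ∈ N.1 ∧ y'.1 = .b l := h4
  have h6 : y' = ⟨.b l, hb l⟩ := Subtype.ext hy3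
  rw [h6] at h5
  obtain ⟨M, hM, hM2, _⟩ := fr_qq hb hc he hd hcone i (fun _ => X) hXro h5
  have hMN : M = N := Subtype.ext (by rw [hM2]; exact htr)
  rw [hMN] at hM
  exact hN hM

/-- If all points `u N`, `v N` are present, then `phi` is valid. -/
theorem fr_valid (hu : ∀ N, P (.u N)) (hv : ∀ N, P (.v N)) : (Fr P hb I).Valid (phi i) := by
  intro V hV x
  rw [phi, force_imp]
  intro x hx0 hx
  clear hx0
  refine ⟨x, le_refl _, ?_⟩
  obtain ⟨h1, h2⟩ := hx
  have h1' := fr_gam hb hc he hd hcone i V x h1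
  have hmin : ∀ x' : {x // P x}, x' ≤ x → x'.1 = x.1 := by
    intro x' hx'
    have hle : x'.1 ≤ x.1 := hx'
    rcases h1' with h | ⟨N, h, _⟩
    · rw [h] at hle ⊢
      exact le_c hle
    · rw [h] at hle ⊢
      exact le_u hle
  have hsee : ∀ l, Rel x.1 (.b l) := by
    intro l
    rcases h1' with h | ⟨N, h, h'⟩
    · rw [h]
      exact .cb
    · rw [h]
      exact .ub (h' l)
  -- the trace is nonempty
  have hreg := tr_reg hb (V 0) (hV 0)
  have hne : (tr hb (V 0)).Nonempty := by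
    rw [force_dia] at h2
    obtain ⟨y, hy, y', hy', h3, h4⟩ := h2 x (le_refl _)
    rw [fr_bet hb hc he hd hcone] at h3
    have hR : Rel x.1 y.1 := hy
    have hle : y'.1 ≤ y.1 := hy'
    cases hyy : y.1 with
    | b m =>
      rw [hyy] at hle
      obtain ⟨m', hm', _⟩ := le_b hle
      have h5 : y' = ⟨.b m', hb m'⟩ := Subtype.ext hm'
      rw [h5] at h4
      exact ⟨m', h4⟩
    | v M =>
      rw [hyy] at hle
      rw [le_v hle] at h3
      exact (h3 .vd).elim
    | e =>
      rw [hyy] at hle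
      rw [le_e hle] at h3
      exact (h3 .ed).elim
    | u M =>
      rw [hyy] at hR
      rcases h1' with h | ⟨N, h, _⟩
      · rw [h] at hR
        cases hR
      · rw [h] at hR
        cases hR
    | c =>
      rw [hyy] at hR
      rcases h1' with h | ⟨N, h, _⟩
      · rw [h] at hR
        cases hR
      · rw [h] at hR
        cases hR
    | d =>
      rw [hyy] at hR
      rcases h1' with h | ⟨N, h, _⟩
      · rw [h] at hR
        cases hR
      · rw [h] at hR
        cases hR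
  let N : NRO := ⟨tr hb (V 0), hne, hreg⟩
  have hpsi : (Fr P hb I).Force V (psi i) ⟨.u N, hu N⟩ :=
    fr_psi' hb hc he hd hcone i V (hV 0) (hu N) (hv N) rfl
  have hbeta : ∀ l, (Fr P hb I).Force V (bet i) ⟨.b l, hb l⟩ := by
    intro l
    rw [fr_bet hb hc he hd hcone]
    intro hh
    cases hh
  refine ⟨?_, ?_⟩
  · rw [force_dia]
    intro x' hx'
    have hx3 := hmin x' hx'
    refine ⟨⟨.b (0 :: pick N), hb _⟩, ?_, ⟨.b (0 :: pick N), hb _⟩, le_refl _,
      ⟨hbeta _, ?_⟩, ?_⟩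
    · change Rel x'.1 _
      rw [hx3]
      exact hsee _
    · exact N.2.2.up (List.suffix_cons _ _) (pick_mem N)
    · rw [qq, force_dia]
      intro z hz
      obtain ⟨l', h5, h6⟩ := le_b (x := z.1) (l := 0 :: pick N) hz
      refine ⟨⟨.u N, hu N⟩, ?_, ⟨.u N, hu N⟩, le_refl _, hpsi⟩
      change Rel z.1 (.u N)
      rw [h5]
      exact .bu (Or.inr h6)
  · rw [force_dia]
    intro x' hx'
    have hx3 := hmin x' hx'
    refine ⟨⟨.b (1 :: pick N), hb _⟩, ?_, ⟨.b (1 :: pick N), hb _⟩, le_refl _,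
      ⟨hbeta _, ?_⟩, ?_⟩
    · change Rel x'.1 _
      rw [hx3]
      exact hsee _
    · exact N.2.2.up (List.suffix_cons _ _) (pick_mem N)
    · intro z hz hq
      obtain ⟨l', h5, h6⟩ := le_b (x := z.1) (l := 1 :: pick N) hz
      have h7 : z = ⟨.b l', hb l'⟩ := Subtype.ext h5
      rw [h7] at hq
      obtain ⟨M, _, hM2, hM3⟩ := fr_qq hb hc he hd hcone i V (hV 0) hq
      have hMN : M = N := Subtype.ext hM2
      rw [hMN] at hM3
      exact not_comp _ _ h6 hM3

end fr

end Pool.Agent.R612.PF
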