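import Pool.Agent.R612.PF.Defs

/-!
# The possibility frame and its subframes
-/

namespace Pool.Agent.R612.PF

universe u w

/-- Nonempty regular open sets of finite sequences, extension being consing. -/
def Reg (N : Set (List ℕ)) : Prop :=
  ∀ l, (∀ l', l <:+ l' → ∃ l'', l' <:+ l'' ∧ l'' ∈ N) ↔ l ∈ N

abbrev NRO : Type := {N : Set (List ℕ) // N.Nonempty ∧ Reg N}

theorem Reg.up {N : Set (List ℕ)} (hN : Reg N) {l l' : List ℕ} (h : l <:+ l') (hl : l ∈ N) :
    l' ∈ N := by
  rw [← hN] at hl ⊢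
  exact fun l'' h'' => hl l'' (h.trans h'')

/-- A chosen element. -/
noncomputable def pick (N : NRO) : List ℕ := N.2.1.some

theorem pick_mem (N : NRO) : pick N ∈ N.1 := N.2.1.some_mem

/-- Cones are regular open. -/
theorem reg_cone (l : List ℕ) : Reg {m | l <:+ m} := by
  intro m
  constructor
  · intro h
    by_contra hm
    have hm' : ¬ l <:+ m := hm
    -- extend `m` to something incompatible with `l`
    by_cases h1 : m <:+ l
    · obtain ⟨t, rfl⟩ := h1
      have ht : t ≠ [] := by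
        rintro rfl
        exact hm' (List.suffix_refl _)
      -- take `a :: m` with `a` different from the last element of `t`
      obtain ⟨t', b, rfl⟩ : ∃ t' b, t = t' ++ [b] := by
        rcases List.eq_nil_or_concat t with h | ⟨t', b, h⟩
        · exact absurd h ht
        · exact ⟨t', b, by simpa using h⟩
      obtain ⟨l'', hl, hl2⟩ := h ((b + 1) :: m) (List.suffix_cons _ _)
      have hl2' : (t' ++ [b]) ++ m <:+ l'' := hl2
      have h3 : (b :: m) <:+ l'' := by
        refine List.IsSuffix.trans ?_ hl2'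
        exact ⟨t', by simp⟩
      have h4 : (b :: m) <:+ ((b + 1) :: m) :=
        List.suffix_of_suffix_length_le h3 hl (by simp)
      have h5 := h4.eq_of_length (by simp)
      simp at h5
    · obtain ⟨l'', hl, hl2⟩ := h m (List.suffix_refl _)
      rcases List.suffix_or_suffix_of_suffix hl hl2 with h3 | h3
      · exact h1 h3
      · exact hm' h3
  · intro h l' hl'
    exact ⟨l', List.suffix_refl _, List.IsSuffix.trans h hl'⟩

/-- The cone of `l`. -/
def cone (l : List ℕ) : NRO := ⟨{m | l <:+ m}, ⟨l, List.suffix_refl _⟩, reg_cone l⟩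

/-- Points of the frame. -/
inductive Pt : Type
  | b : List ℕ → Pt
  | u : NRO → Pt
  | v : NRO → Pt
  | c : Pt
  | e : Pt
  | d : Pt

/-- Refinement. -/
inductive Pt.Le : Pt → Pt → Prop
  | refl (x : Pt) : Pt.Le x x
  | b {l l' : List ℕ} (h : l' <:+ l) : Pt.Le (.b l) (.b l')

instance : PartialOrder Pt where
  le := Pt.Le
  le_refl := Pt.Le.refl
  le_trans := by
    intro x y z h1 h2
    cases h1 with
    | refl => exact h2
    | b h =>
      cases h2 with
      | refl => exact .b h
      | b h' => exact .b (h'.trans h)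
  le_antisymm := by
    intro x y h1 h2
    cases h1 with
    | refl => rfl
    | b h =>
      cases h2 with
      | refl => rfl
      | b h' =>
        rw [h.eq_of_length_le h'.length_le]

/-- Compatibility of sequences. -/
def Comp (l m : List ℕ) : Prop := l <:+ m ∨ m <:+ l

/-- The accessibility relation. -/
inductive Rel : Pt → Pt → Prop
  | bu {l : List ℕ} {N : NRO} (h : Comp l (0 :: pick N)) : Rel (.b l) (.u N)
  | ub {N : NRO} {l : List ℕ} (h : l ∈ N.1) : Rel (.u N) (.b l)
  | uv {N : NRO} : Rel (.u N) (.v N)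
  | vb {N : NRO} {l : List ℕ} (h : ∀ l', l <:+ l' → l' ∉ N.1) : Rel (.v N) (.b l)
  | vd {N : NRO} : Rel (.v N) .d
  | cb {l : List ℕ} : Rel .c (.b l)
  | ce : Rel .c .e
  | ed : Rel .e .d

theorem Comp.up {l l' m : List ℕ} (h : l <:+ l') (hc : Comp l' m) : Comp l m := by
  rcases hc with h1 | h1
  · exact Or.inl (h.trans h1)
  · exact List.suffix_or_suffix_of_suffix h h1

theorem not_comp (w m : List ℕ) (h : 1 :: w <:+ m) : ¬ Comp m (0 :: w) := by
  intro hc
  have h1 : Comp (1 :: w) (0 :: w) := Comp.up h hc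
  rcases h1 with h1 | h1
  · have := h1.eq_of_length (by simp)
    simp at this
  · have := h1.eq_of_length (by simp)
    simp at this

/-- `x' ≤ x`, `x' R y` imply `x R y`. -/
theorem rel_up {x x' y : Pt} (h : x' ≤ x) (hr : Rel x' y) : Rel x y := by
  cases h with
  | refl => exact hr
  | b h =>
    cases hr with
    | bu h' => exact .bu (h'.up h)

theorem le_b {x : Pt} {l : List ℕ} (h : x ≤ Pt.b l) : ∃ l', x = .b l' ∧ l <:+ l' := by
  cases h with
  | refl => exact ⟨l, rfl, List.suffix_refl _⟩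
  | b h => exact ⟨_, rfl, h⟩

theorem le_u {x : Pt} {N : NRO} (h : x ≤ Pt.u N) : x = .u N := by
  cases h; rfl

theorem le_v {x : Pt} {N : NRO} (h : x ≤ Pt.v N) : x = .v N := by
  cases h; rfl

theorem le_c {x : Pt} (h : x ≤ Pt.c) : x = .c := by
  cases h; rfl

theorem le_e {x : Pt} (h : x ≤ Pt.e) : x = .e := by
  cases h; rfl

theorem le_d {x : Pt} (h : x ≤ Pt.d) : x = .d := by
  cases h; rfl

theorem ge_d {x : Pt} (h : Pt.d ≤ x) : x = .d := by
  cases h; rfl

theorem ge_e {x : Pt} (h : Pt.e ≤ x) : x = .e := by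
  cases h; rfl

theorem ge_v {x : Pt} {N : NRO} (h : Pt.v N ≤ x) : x = .v N := by
  cases h; rfl

section sub

variable (P : Pt → Prop) (hb : ∀ l, P (.b l))

include hb

/-- Refinability in subframes containing all the points `b l`. -/
theorem refinable {x y y' : Pt} (hx : P x) (hy : P y) (hr : Rel x y) (hy' : y' ≤ y) (hPy : P y') :
    ∃ x', P x' ∧ x' ≤ x ∧ ∀ x'', P x'' → x'' ≤ x' → ∃ z, P z ∧ Rel x'' z ∧
      ∃ z', P z' ∧ z' ≤ z ∧ z' ≤ y' := by
  cases hr with
  | @bu l N h =>
    have := le_u hy'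
    subst this
    obtain ⟨m, hm1, hm2⟩ : ∃ m, l <:+ m ∧ (0 :: pick N) <:+ m := by
      rcases h with h | h
      · exact ⟨_, h, List.suffix_refl _⟩
      · exact ⟨_, List.suffix_refl _, h⟩
    refine ⟨.b m, hb m, .b hm1, ?_⟩
    intro x'' _ hle
    obtain ⟨m', rfl, hm'⟩ := le_b hle
    exact ⟨.u N, hy, .bu (Or.inr (hm2.trans hm')), .u N, hy, le_refl _, le_refl _⟩
  | @ub N l h =>
    obtain ⟨l', rfl, hl'⟩ := le_b hy'
    refine ⟨.u N, hx, le_refl _, ?_⟩
    intro x'' _ hle
    have := le_u hle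
    subst this
    exact ⟨.b l', hb _, .ub (N.2.2.up hl' h), .b l', hb _, le_refl _, le_refl _⟩
  | @uv N =>
    have := le_v hy'
    subst this
    refine ⟨.u N, hx, le_refl _, ?_⟩
    intro x'' _ hle
    have := le_u hle
    subst this
    exact ⟨.v N, hy, .uv, .v N, hy, le_refl _, le_refl _⟩
  | @vb N l h =>
    obtain ⟨l', rfl, hl'⟩ := le_b hy'
    refine ⟨.v N, hx, le_refl _, ?_⟩
    intro x'' _ hle
    have := le_v hle
    subst this
    exact ⟨.b l', hb _, .vb (fun m hm => h m (hl'.trans hm)), .b l', hb _, le_refl _, le_refl _⟩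
  | @vd N =>
    have := le_d hy'
    subst this
    refine ⟨.v N, hx, le_refl _, ?_⟩
    intro x'' _ hle
    have := le_v hle
    subst this
    exact ⟨.d, hy, .vd, .d, hy, le_refl _, le_refl _⟩
  | @cb l =>
    obtain ⟨l', rfl, hl'⟩ := le_b hy'
    refine ⟨.c, hx, le_refl _, ?_⟩
    intro x'' _ hle
    have := le_c hle
    subst this
    exact ⟨.b l', hb _, .cb, .b l', hb _, le_refl _, le_refl _⟩
  | ce =>
    have := le_e hy'
    subst this
    refine ⟨.c, hx, le_refl _, ?_⟩
    intro x'' _ hle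
    have := le_c hle
    subst this
    exact ⟨.e, hy, .ce, .e, hy, le_refl _, le_refl _⟩
  | ed =>
    have := le_d hy'
    subst this
    refine ⟨.e, hx, le_refl _, ?_⟩
    intro x'' _ hle
    have := le_e hle
    subst this
    exact ⟨.d, hy, .ed, .d, hy, le_refl _, le_refl _⟩

/-- The box of a regular open set is regular open. -/
theorem sub_box_ro (X : Set {x // P x}) (hX : IsRO X) :
    IsRO {x : {x // P x} | ∀ y : {x // P x}, Rel x.1 y.1 → y ∈ X} := by
  unfold IsRO
  have hper : ∀ x x' : {x // P x}, x' ≤ x → x ∈ X → x' ∈ X := by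
    intro x x' h hx
    rw [hX] at hx ⊢
    exact fun y hy => hx y (hy.trans h)
  ext x
  constructor
  · intro hx x' hx'
    refine ⟨x', le_refl _, ?_⟩
    intro y hy
    exact hx y (rel_up hx' hy)
  · intro hx y hy
    by_contra hyX
    rw [hX] at hyX
    simp only [Set.mem_ofPred_eq, not_forall, not_exists, not_and] at hyX
    obtain ⟨y', hy', hyX⟩ := hyX
    obtain ⟨x', hPx', hx', h⟩ := refinable P hb x.2 y.2 hy hy' y'.2
    obtain ⟨x'', hx'', hx''2⟩ := hx ⟨x', hPx'⟩ hx'
    obtain ⟨z, hPz, hz, z', hPz', hz'1, hz'2⟩ := h x''.1 x''.2 hx''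
    have h1 : (⟨z, hPz⟩ : {x // P x}) ∈ X := hx''2 ⟨z, hPz⟩ hz
    have h2 : (⟨z', hPz'⟩ : {x // P x}) ∈ X := hper ⟨z, hPz⟩ ⟨z', hPz'⟩ hz'1 h1
    exact hyX ⟨z', hPz'⟩ hz'2 h2

/-- The subframe with set of points `P`. -/
abbrev Fr (I : Type w) : PFrame.{0, w} I where
  S := {x // P x}
  ne := ⟨⟨.b [], hb []⟩⟩
  po := inferInstance
  R := fun _ x y => Rel x.1 y.1
  box_ro := fun _ X hX => sub_box_ro P hb X hX

end sub

end Pool.Agent.R612.PF
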