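import Pool.Agent.R612.PF.Defs

/-!
# The Kripke side: `phi i` has a first-order correspondent over Kripke frames
-/

namespace Pool.Agent.R612.PF

open FirstOrder FirstOrder.Language

universe u w

variable {I : Type w}

section sem

variable (K : KFrame.{u, w} I) (V : ℕ → Set K.W) (i : I)

theorem sat_bot (x : K.W) : ¬ K.Sat V .bot x := by
  simp [Mf.bot, KFrame.Sat]

theorem sat_imp (a b : Mf I) (x : K.W) : K.Sat V (.imp a b) x ↔ (K.Sat V a x → K.Sat V b x) := by
  simp [Mf.imp, KFrame.Sat]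

theorem sat_dia (a : Mf I) (x : K.W) :
    K.Sat V (.dia i a) x ↔ ∃ y, K.R i x y ∧ K.Sat V a y := by
  simp [Mf.dia, KFrame.Sat]

/-- Dead ends. -/
def KDead (x : K.W) : Prop := ∀ y, ¬ K.R i x y

def KKap (x : K.W) : Prop := ∃ y, K.R i x y ∧ KDead K i y

def KRho (x : K.W) : Prop := KKap K i x ∧ ∀ y, K.R i x y → KDead K i y

theorem sat_dead (x : K.W) : K.Sat V (.box i .bot) x ↔ KDead K i x := by
  simp [KFrame.Sat, sat_bot, KDead]

theorem sat_kap (x : K.W) : K.Sat V (kap i) x ↔ KKap K i x := by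
  simp [kap, sat_dia, sat_dead, KKap]

theorem sat_bet (x : K.W) : K.Sat V (bet i) x ↔ ¬ KKap K i x := by
  simp [bet, KFrame.Sat, sat_kap]

theorem sat_rho (x : K.W) : K.Sat V (rho i) x ↔ KRho K i x := by
  rw [rho, KFrame.Sat, KFrame.Sat, sat_kap, KRho]
  simp only [sat_dead]

theorem sat_gam (x : K.W) : K.Sat V (gam i) x ↔ ∃ y, K.R i x y ∧ KRho K i y := by
  simp [gam, sat_dia, sat_rho]

/-- The condition expressed on Kripke frames. -/
def KCond : Prop :=
  ∀ x, ¬ ((∃ y, K.R i x y ∧ KRho K i y) ∧ ∃ y, K.R i x y ∧ ¬ KKap K i y)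

end sem

theorem kripke_valid_iff (K : KFrame.{u, w} I) (i : I) : K.Valid (phi i) ↔ KCond K i := by
  constructor
  · intro h x hx
    obtain ⟨h1, y, hy1, hy2⟩ := hx
    have := h (fun _ => {y}) x
    rw [phi, sat_imp] at this
    have h3 := this ⟨by rw [sat_gam]; exact h1, by
      rw [sat_dia]
      exact ⟨y, hy1, by rw [KFrame.Sat, sat_bet]; exact ⟨hy2, rfl⟩⟩⟩
    rw [KFrame.Sat, sat_dia, sat_dia] at h3
    obtain ⟨⟨a, _, ⟨_, ha⟩, ha2⟩, ⟨b, _, ⟨_, hb⟩, hb2⟩⟩ := h3
    have ha' : a = y := ha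
    have hb' : b = y := hb
    subst ha'
    subst hb'
    exact hb2 ha2
  · intro h V x
    rw [phi, sat_imp]
    rintro ⟨h1, h2⟩
    exfalso
    refine h x ⟨by rwa [sat_gam] at h1, ?_⟩
    rw [sat_dia] at h2
    obtain ⟨y, hy, hy2, _⟩ := h2
    exact ⟨y, hy, by rwa [sat_bet] at hy2⟩

/-- The binary relation symbol. -/
def kR (i : I) : (kLang I).Relations 2 := KRel.R i

/-- `t` is a dead end, for the variable `m` (with `n` bound variables in use). -/
def fDead (i : I) {n : ℕ} (m : Fin n) : (kLang I).BoundedFormula Empty n :=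
  ((kR i).boundedFormula₂ (&(Fin.castSucc m)) (&(Fin.last n))).not.all

def fKap (i : I) {n : ℕ} (m : Fin n) : (kLang I).BoundedFormula Empty n :=
  (((kR i).boundedFormula₂ (&(Fin.castSucc m)) (&(Fin.last n))) ⊓ fDead i (Fin.last n)).ex

def fRho (i : I) {n : ℕ} (m : Fin n) : (kLang I).BoundedFormula Empty n :=
  fKap i m ⊓
    (((kR i).boundedFormula₂ (&(Fin.castSucc m)) (&(Fin.last n))).imp (fDead i (Fin.last n))).all

def fPhi (i : I) : (kLang I).Sentence :=
  (((((kR i).boundedFormula₂ (&(Fin.castSucc (0 : Fin 1))) (&(Fin.last 1))) ⊓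
      fRho i (Fin.last 1)).ex ⊓
    (((kR i).boundedFormula₂ (&(Fin.castSucc (0 : Fin 1))) (&(Fin.last 1))) ⊓
      (fKap i (Fin.last 1)).not).ex).not).all

theorem realize_kR (K : KFrame.{u, w} I) (i : I) {n : ℕ} (m : Fin n) (v : Empty → K.W)
    (xs : Fin n → K.W) (y : K.W) :
    ((kR i).boundedFormula₂ (&(Fin.castSucc m)) (&(Fin.last n))).Realize v (Fin.snoc xs y) ↔
      K.R i (xs m) y := by
  rw [BoundedFormula.realize_rel₂]
  have e1 : Term.realize (L := kLang I) (Sum.elim v (Fin.snoc xs y : Fin (n + 1) → K.W))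
      (&(Fin.castSucc m)) = xs m := by
    rw [Function.comp_apply, Term.realize_var, Sum.elim_inr, Fin.snoc_castSucc]
  have e2 : Term.realize (L := kLang I) (Sum.elim v (Fin.snoc xs y : Fin (n + 1) → K.W))
      (&(Fin.last n)) = y := by
    rw [Function.comp_apply, Term.realize_var, Sum.elim_inr, Fin.snoc_last]
  rw [e1, e2]
  exact Iff.rfl

theorem realize_fDead (K : KFrame.{u, w} I) (i : I) {n : ℕ} (m : Fin n) (v : Empty → K.W)
    (xs : Fin n → K.W) : (fDead i m).Realize v xs ↔ KDead K i (xs m) := by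
  rw [fDead, BoundedFormula.realize_all]
  simp only [BoundedFormula.realize_not, realize_kR, KDead]

theorem realize_fKap (K : KFrame.{u, w} I) (i : I) {n : ℕ} (m : Fin n) (v : Empty → K.W)
    (xs : Fin n → K.W) : (fKap i m).Realize v xs ↔ KKap K i (xs m) := by
  rw [fKap, BoundedFormula.realize_ex]
  simp only [BoundedFormula.realize_inf, realize_kR, KKap, realize_fDead, Fin.snoc_last]

theorem realize_fRho (K : KFrame.{u, w} I) (i : I) {n : ℕ} (m : Fin n) (v : Empty → K.W)
    (xs : Fin n → K.W) : (fRho i m).Realize v xs ↔ KRho K i (xs m) := by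
  rw [fRho, BoundedFormula.realize_inf, BoundedFormula.realize_all, realize_fKap]
  simp only [BoundedFormula.realize_imp, realize_kR, KRho, realize_fDead, Fin.snoc_last]

theorem realize_fPhi (K : KFrame.{u, w} I) (i : I) : K.W ⊨ fPhi i ↔ KCond K i := by
  rw [Sentence.Realize, Formula.Realize, fPhi, BoundedFormula.realize_all]
  simp only [BoundedFormula.realize_not, BoundedFormula.realize_inf,
    BoundedFormula.realize_ex, realize_kR, realize_fRho, realize_fKap, Fin.snoc_last, KCond]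
  have h0 : ∀ a : K.W, (Fin.snoc (default : Fin 0 → K.W) a : Fin 1 → K.W) 0 = a := by
    intro a
    exact Fin.snoc_last (α := fun _ : Fin 1 => K.W) a (default : Fin 0 → K.W)
  simp only [h0]

theorem kripke_correspondent (i : I) (K : KFrame.{u, w} I) :
    K.Valid (phi i) ↔ K.W ⊨ fPhi i := by
  rw [kripke_valid_iff, realize_fPhi]

end Pool.Agent.R612.PF
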