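import Pool.Agent.R612.PF.Krip
import Pool.Agent.R612.PF.Force

/-!
# No first-order correspondent over full possibility frames
-/

namespace Pool.Agent.R612.PF

open FirstOrder FirstOrder.Language Cardinal

universe u w

/-- Identify all relation symbols `R i`. -/
def hom (I : Type w) : pLang I →ᴸ pLang Unit where
  onFunction := fun {_} f => Empty.elim f
  onRelation := fun {_} r => match r with
    | .le => PRel.le
    | .R _ => PRel.R ()

theorem transfer (I : Type w) {S : Type u} (le R : S → S → Prop) (α : (pLang I).Sentence) :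
    @Sentence.Realize (pLang I) S (mkStr I le (fun _ => R)) α ↔
      @Sentence.Realize (pLang Unit) S (mkStr Unit le (fun _ => R)) ((hom I).onSentence α) := by
  let s1 : (pLang I).Structure S := mkStr I le (fun _ => R)
  let s2 : (pLang Unit).Structure S := mkStr Unit le (fun _ => R)
  have : (hom I).IsExpansionOn S :=
    { map_onFunction := fun {_} f => Empty.elim f
      map_onRelation := by
        intro n r x
        cases r with
        | le => rfl
        | R i => rfl }
  exact (LHom.realize_onSentence S (hom I) α).symm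

theorem iso_transfer {S S' : Type u} (le R : S → S → Prop) (le' R' : S' → S' → Prop)
    (f : S ≃ S') (hle : ∀ x y, le' (f x) (f y) ↔ le x y) (hR : ∀ x y, R' (f x) (f y) ↔ R x y)
    (α : (pLang Unit).Sentence) :
    @Sentence.Realize (pLang Unit) S (mkStr Unit le (fun _ => R)) α ↔
      @Sentence.Realize (pLang Unit) S' (mkStr Unit le' (fun _ => R')) α := by
  let s1 : (pLang Unit).Structure S := mkStr Unit le (fun _ => R)
  let s2 : (pLang Unit).Structure S' := mkStr Unit le' (fun _ => R')
  let g : S ≃[pLang Unit] S' :=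
    { f with
      map_fun' := fun {_} f => Empty.elim f
      map_rel' := by
        intro n r x
        cases r with
        | le => exact hle _ _
        | R i => exact hR _ _ }
  exact StrongHomClass.realize_sentence g α

instance ptStr : (pLang Unit).Structure Pt := mkStr Unit (fun x y => x ≤ y) (fun _ => Rel)

theorem card_lang : (pLang Unit).card ≤ ℵ₀ := by
  have : Countable (pLang Unit).Symbols := by
    have h1 : Countable (Σ l, (pLang Unit).Functions l) := by
      refine ⟨⟨fun x => Empty.elim x.2, fun x => Empty.elim x.2⟩⟩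
    have h2 : Countable (Σ l, (pLang Unit).Relations l) := by
      refine ⟨⟨fun x => match x with
        | ⟨_, PRel.le⟩ => 0
        | ⟨_, PRel.R _⟩ => 1, ?_⟩⟩
      rintro ⟨_, a⟩ ⟨_, b⟩ hab
      cases a <;> cases b <;> simp at hab ⊢
    exact instCountableSum
  exact Cardinal.mk_le_aleph0

/-- The countable set of points which must be present. -/
def base : Set Pt := Set.range Pt.b ∪ Set.range (fun l => Pt.u (cone l)) ∪ {.c, .e, .d}

theorem base_countable : base.Countable := by
  refine ((Set.countable_range _).union (Set.countable_range _)).union ?_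
  exact Set.Finite.countable (by simp)

theorem exists_sub : ∃ S : (pLang Unit).ElementarySubstructure Pt,
    base ⊆ (S : Set Pt) ∧ Countable S := by
  have hinf : ℵ₀ ≤ #Pt := by
    have : Infinite Pt := Infinite.of_injective (fun n : ℕ => Pt.b [n]) (by
      intro a b h
      have := Pt.b.inj h
      simpa using this)
    exact Cardinal.aleph0_le_mk Pt
  obtain ⟨S, h1, h2⟩ := exists_elementarySubstructure_card_eq (pLang Unit) base Cardinal.aleph0.{0} (le_refl _)
    (by
      have := base_countable.to_subtype
      simpa using Cardinal.mk_le_aleph0 (α := base))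
    (by simpa using card_lang) (by simpa using hinf)
  refine ⟨S, h1, ?_⟩
  rw [← Cardinal.mk_le_aleph0_iff]
  simpa using h2.le

/-- Uncountably many nonempty regular open sets. -/
def rset (A : Set ℕ) : Set (List ℕ) := {l | ∃ n t, l = t ++ [n] ∧ (n = 0 ∨ ∃ m ∈ A, n = m + 2)}

theorem rset_cons {A : Set ℕ} {n : ℕ} {l : List ℕ} (h : [n] <:+ l) :
    l ∈ rset A ↔ (n = 0 ∨ ∃ m ∈ A, n = m + 2) := by
  obtain ⟨t, rfl⟩ := h
  constructor
  · rintro ⟨k, t', h, h'⟩
    have := List.append_inj' h rfl
    simp at this
    rw [this.2]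
    exact h'
  · intro h
    exact ⟨n, t, rfl, h⟩

theorem reg_rset (A : Set ℕ) : Reg (rset A) := by
  intro l
  rcases List.eq_nil_or_concat l with h | ⟨t, n, h⟩
  · subst h
    constructor
    · intro h
      obtain ⟨l'', h1, h2⟩ := h [1] (List.nil_suffix)
      rw [rset_cons h1] at h2
      rcases h2 with h2 | ⟨m, _, h2⟩
      · simp at h2
      · omega
    · rintro ⟨n, t, h, _⟩
      simp at h
  · have hl : [n] <:+ l := ⟨t, by simpa using h.symm⟩
    constructor
    · intro h
      obtain ⟨l'', h1, h2⟩ := h l (List.suffix_refl _)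
      rw [rset_cons hl]
      rwa [rset_cons (hl.trans h1)] at h2
    · intro h l' hl'
      refine ⟨l', List.suffix_refl _, ?_⟩
      rw [rset_cons hl] at h
      rwa [rset_cons (hl.trans hl')]

def rn (A : Set ℕ) : NRO := ⟨rset A, ⟨[0], 0, [], rfl, Or.inl rfl⟩, reg_rset A⟩

theorem rn_inj : Function.Injective rn := by
  intro A B h
  have h' : rset A = rset B := congrArg Subtype.val h
  ext n
  have h1 : [n + 2] ∈ rset A ↔ [n + 2] ∈ rset B := by rw [h']
  rw [rset_cons (List.suffix_refl _), rset_cons (List.suffix_refl _)] at h1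
  constructor
  · intro hn
    rcases h1.1 (Or.inr ⟨n, hn, rfl⟩) with h2 | ⟨m, hm, h2⟩
    · omega
    · have : n = m := by omega
      rwa [this]
  · intro hn
    rcases h1.2 (Or.inr ⟨n, hn, rfl⟩) with h2 | ⟨m, hm, h2⟩
    · omega
    · have : n = m := by omega
      rwa [this]

theorem exists_missing (S : Set Pt) [Countable S] : ∃ N : NRO, Pt.u N ∉ S := by
  by_contra hcon
  push Not at hcon
  have hinj : Function.Injective (fun A : Set ℕ => (⟨Pt.u (rn A), hcon _⟩ : S)) := by
    intro A B h
    have := congrArg Subtype.val h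
    exact rn_inj (Pt.u.inj this)
  have : Countable (Set ℕ) := hinj.countable
  have h1 := Cardinal.mk_le_aleph0 (α := Set ℕ)
  rw [Cardinal.mk_set, Cardinal.mk_nat] at h1
  exact absurd h1 (not_le.2 (Cardinal.cantor _))

theorem no_correspondent (I : Type w) (i : I) :
    ¬ ∃ α : (pLang I).Sentence, ∀ F : PFrame.{0, w} I, F.Valid (phi i) ↔ F.S ⊨ α := by
  rintro ⟨α, hα⟩
  obtain ⟨S, hS, hcount⟩ := exists_sub
  have : Countable (S : Set Pt) := hcount
  obtain ⟨N, hN⟩ := exists_missing (S : Set Pt)
  have hb : ∀ l, Pt.b l ∈ S := fun l => hS (Or.inl (Or.inl ⟨l, rfl⟩))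
  have hcone : ∀ l, Pt.u (cone l) ∈ S := fun l => hS (Or.inl (Or.inr ⟨l, rfl⟩))
  have hc : Pt.c ∈ S := hS (Or.inr (by simp))
  have he : Pt.e ∈ S := hS (Or.inr (by simp))
  have hd : Pt.d ∈ S := hS (Or.inr (by simp))
  -- the small frame
  have h1 : ¬ (Fr (fun x => x ∈ S) hb I).Valid (phi i) :=
    fr_not_valid hb hc he hd hcone i N hN
  -- the full frame
  have h2 : (Fr (fun _ => True) (fun _ => trivial) I).Valid (phi i) :=
    fr_valid (P := fun _ => True) (fun _ => trivial) trivial trivial trivial (fun _ => trivial) i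
      (fun _ => trivial) (fun _ => trivial)
  rw [hα] at h1 h2
  apply h1
  have h3 := (transfer I (S := {x : Pt // True}) (fun x y => x ≤ y) (fun x y => Rel x.1 y.1) α).1 h2
  have h4 := (iso_transfer (S := {x : Pt // True}) (S' := Pt) (fun x y => x ≤ y)
    (fun x y => Rel x.1 y.1) (fun x y => x ≤ y) Rel
    ⟨fun x => x.1, fun x => ⟨x, trivial⟩, fun _ => rfl, fun _ => rfl⟩
    (fun _ _ => Iff.rfl) (fun _ _ => Iff.rfl) _).1 h3
  have h5 := (S.realize_sentence ((hom I).onSentence α)).2 h4
  refine (transfer I (S := {x : Pt // x ∈ S}) (fun x y => x ≤ y) (fun x y => Rel x.1 y.1) α).2 ?_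
  have hstr : (mkStr Unit (fun x y : {x : Pt // x ∈ S} => x ≤ y) (fun _ x y => Rel x.1 y.1)) =
      (inferInstance : (pLang Unit).Structure S) := by
    refine Structure.ext ?_ ?_
    · funext n f
      exact Empty.elim f
    · funext n r x
      cases r with
      | le => rfl
      | R i => rfl
  rw [hstr]
  exact h5

end Pool.Agent.R612.PF
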